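import Mathlib
import Pool.Agent.H85.OT.Wcong

/-!
# Inner twists: `p ∤ lam p` in `O` becomes: no prime of `O` above `p` contains `lam p`
-/

set_option autoImplicit false

open NumberField

namespace Pool.Agent.H7.OP

open Pool.Agent.H85.OT

section

variable {E : Type} [Field E] [NumberField E]

/-- an unramified prime is not contained in the square of a prime ideal -/
theorem Inner_sq {p : ℕ} (hp : p.Prime) (hd : ¬ (p : ℤ) ∣ discr E) (P : Ideal (𝓞 E)) [hP : P.IsPrime]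
    (h : (p : 𝓞 E) ∈ P) : ¬ (p : 𝓞 E) ∈ P ^ 2 := by
  have hp' : _root_.Prime (p : ℤ) := Nat.prime_iff_prime_int.1 hp
  have h1 := (not_dvd_discr_iff_forall_mem E (𝓞 E) hp').1 hd P hP (by simpa using h)
  have hP0 : P ≠ ⊥ := by
    rintro rfl
    have : (p : 𝓞 E) = 0 := h
    exact hp.ne_zero (by exact_mod_cast this)
  have h2 : (Ideal.span {(p : ℤ)}).map (algebraMap ℤ (𝓞 E)) = Ideal.span {(p : 𝓞 E)} := by
    rw [Ideal.map_span, Set.image_singleton]
    simp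
  have hu : P.under ℤ = Ideal.span {(p : ℤ)} := by
    have hm : (Ideal.span {(p : ℤ)}).IsMaximal :=
      PrincipalIdealRing.isMaximal_of_irreducible hp'.irreducible
    refine (hm.eq_of_le (Ideal.IsPrime.ne_top inferInstance) ?_).symm
    rw [Ideal.span_singleton_le_iff_mem]
    exact (by simpa using h : algebraMap ℤ (𝓞 E) (p : ℤ) ∈ P)
  let _ := Localization.AtPrime.algebraOfLiesOver (P.under ℤ) P
  obtain ⟨_, h3⟩ := (Algebra.isUnramifiedAt_iff_map_eq ℤ (P.under ℤ) P).1 h1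
  have h4 := Ideal.ramificationIdx'_eq_one_of_map_localization (Ideal.map_comap_le) hP0
    P.primeCompl_le_nonZeroDivisors h3
  intro h5
  rw [← not_ne_iff, Ideal.ramificationIdx'_ne_one_iff Ideal.map_comap_le] at h4
  refine h4 ?_
  change (P.under ℤ).map (algebraMap ℤ (𝓞 E)) ≤ P ^ 2
  rw [hu, h2, Ideal.span_singleton_le_iff_mem]
  exact h5

theorem Inner_rad {p : ℕ} (hp : p.Prime) (hd : ¬ (p : ℤ) ∣ discr E) (x : 𝓞 E)
    (h : ∀ P : Ideal (𝓞 E), P.IsPrime → (p : 𝓞 E) ∈ P → x ∈ P) : (p : 𝓞 E) ∣ x := by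
  have hp0 : (p : 𝓞 E) ≠ 0 := by exact_mod_cast hp.ne_zero
  have hs0 : Ideal.span {(p : 𝓞 E)} ≠ 0 := by simpa using hp0
  have h1 : IsRadical (Ideal.span {(p : 𝓞 E)}) := by
    rw [isRadical_iff_squarefree_of_ne_zero hs0]
    intro I hI
    by_contra hu
    have hI0 : I ≠ 0 := by
      rintro rfl
      rw [mul_zero, zero_dvd_iff] at hI
      exact hs0 hI
    obtain ⟨P, hP, hPI⟩ := WfDvdMonoid.exists_irreducible_factor hu hI0
    have hPp : P.IsPrime := Ideal.isPrime_of_prime hP.prime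
    have h2 : P ^ 2 ∣ Ideal.span {(p : 𝓞 E)} := by
      rw [sq]
      exact (mul_dvd_mul hPI hPI).trans hI
    have h3 : (p : 𝓞 E) ∈ P ^ 2 := Ideal.le_of_dvd h2 (Ideal.mem_span_singleton_self _)
    exact Inner_sq hp hd P (Ideal.pow_le_self two_ne_zero h3) h3
  have h2 : x ∈ (Ideal.span {(p : 𝓞 E)}).radical := by
    rw [Ideal.radical_eq_sInf, Ideal.mem_sInf]
    rintro P ⟨h3, h4⟩
    exact h P h4 (h3 (Ideal.mem_span_singleton_self _))
  obtain ⟨n, hn⟩ := h2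
  have h3 : Ideal.span {(p : 𝓞 E)} ∣ (Ideal.span {x}) ^ n := by
    rw [Ideal.dvd_iff_le, Ideal.span_singleton_pow, Ideal.span_singleton_le_iff_mem]
    exact hn
  have h4 := h1 n _ h3
  rw [Ideal.dvd_iff_le, Ideal.span_singleton_le_iff_mem] at h4
  exact Ideal.mem_span_singleton.1 h4

/-- If all conjugates of `lam p` are unit multiples of it (`f` has all its conjugates as twists), then
`p ∤ lam p` in `O` means that no prime ideal of `O` above `p` contains `lam p`. -/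
theorem Inner_main [IsGalois ℚ E] (N : ℕ) (hN : 1 ≤ N) (lam : ℕ → 𝓞 E)
    (ht : ∀ p : ℕ, p.Prime → ¬ p ∣ N → ∀ s : E ≃ₐ[ℚ] E, ∃ u : 𝓞 E, IsUnit u ∧
      s (lam p : E) = (u : E) * (lam p : E))
    (h : PosLower (fun p => ¬ ((p : 𝓞 E) ∣ lam p))) :
    PosLower (fun p => ∀ P : Ideal (𝓞 E), P.IsPrime → (p : 𝓞 E) ∈ P → lam p ∉ P) := by
  have key : ∀ p : ℕ, p.Prime → ¬ p ∣ N → ¬ (p : ℤ) ∣ discr E → ¬ ((p : 𝓞 E) ∣ lam p) →
      ∀ P : Ideal (𝓞 E), P.IsPrime → (p : 𝓞 E) ∈ P → lam p ∉ P := by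
    intro p hp hpN hd h1 P hP hpP h2
    refine h1 (Inner_rad hp hd (lam p) fun Q hQ hpQ => ?_)
    have hp' : _root_.Prime (p : ℤ) := Nat.prime_iff_prime_int.1 hp
    have h3 : P ∈ Ideal.primesOver (Ideal.span {(p : ℤ)}) (𝓞 E) :=
      ⟨hP, (Ideal.liesOver_span_iff hP.ne_top hp').2 (by simpa using hpP)⟩
    have h4 : Q ∈ Ideal.primesOver (Ideal.span {(p : ℤ)}) (𝓞 E) :=
      ⟨hQ, (Ideal.liesOver_span_iff hQ.ne_top hp').2 (by simpa using hpQ)⟩
    obtain ⟨s, hs⟩ := Ideal.exists_comap_galRestrict_eq ℤ ℚ E (𝓞 E) h3 h4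
    rw [← hs, Ideal.mem_comap]
    obtain ⟨u, _, hu⟩ := ht p hp hpN s
    have h5 : galRestrict ℤ ℚ E (𝓞 E) s (lam p) = u * lam p := by
      apply FaithfulSMul.algebraMap_injective (𝓞 E) E
      rw [map_mul]
      exact (algebraMap_galRestrict_apply ℤ s (lam p)).trans hu
    rw [h5]
    exact P.mul_mem_left u h2
  have h1 : PosLower (fun p => p.Prime ∧ ¬ ((p : 𝓞 E) ∣ lam p)) := by
    obtain ⟨c, hc, x0, hx0⟩ := h
    refine ⟨c, hc, x0, fun x hx => (hx0 x hx).trans ?_⟩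
    have h2 : cnt (fun p => ¬ ((p : 𝓞 E) ∣ lam p)) x ≤
        cnt (fun p => p.Prime ∧ ¬ ((p : 𝓞 E) ∣ lam p)) x := by
      classical
      unfold cnt
      refine Finset.card_le_card fun p hp => ?_
      simp only [Finset.mem_filter] at hp ⊢
      exact ⟨hp.1, hp.2.1, hp.2.1, hp.2.2⟩
    exact_mod_cast h2
  refine PosLower.congr (N + (discr E).natAbs + 1) (fun p hp h2 => ?_) h1
  refine key p h2.1 (fun h3 => ?_) (fun h3 => ?_) h2.2
  · have := Nat.le_of_dvd (by omega) h3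
    omega
  · have h4 := Int.natAbs_dvd_natAbs.2 h3
    rw [Int.natAbs_natCast] at h4
    have := Nat.le_of_dvd (Int.natAbs_pos.2 (discr_ne_zero E)) h4
    omega

end

end Pool.Agent.H7.OP
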