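import Pool.Agent.H7.OP.Inner
import Pool.Agent.H90.OP.Res

/-!
# The hand-in for the project OP (MP_17d720) with inner twists: conditional on `Core`
-/

set_option autoImplicit false

open PowerSeries UpperHalfPlane ModularForm MatrixGroups CongruenceSubgroup NumberField
open Pool.Agent.H85.OT Pool.Agent.H85.OU Pool.Agent.H85.OP

namespace Pool.Agent.H7.OP

/-- the statement of the hand-in -/
theorem res_of_core (core : Core) :
    (∀ (E : Type) [Field E] [NumberField E] (σ : E →+* ℂ) (Γ : Subgroup SL(2, ℤ))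
      [Γ.FiniteIndex] (w : ℕ), 0 < w → ModularGroup.T ^ w ∈ Γ → ∀ k : ℕ, 3 ≤ k →
      ∀ (g : ModularForm (Γ : Subgroup (GL (Fin 2) ℝ)) (k : ℤ)) (F : (𝓞 E)⟦X⟧),
        qExpansion (w : ℝ) (g : ℍ → ℂ) = PowerSeries.map (σ.comp (algebraMap (𝓞 E) E)) F →
        (∃ n, 1 ≤ n ∧ PowerSeries.coeff n F ≠ 0) →
        -- (A) all non-constant modular forms
        PosLower (fun p => ∃ m : ℕ, 1 ≤ m ∧ ¬ ((p : 𝓞 E) ∣ PowerSeries.coeff (p * m) F)) ∧
        -- (B) eigenforms of the Hecke operators `T_p`, `p ∤ N`, with eigenvalues `lam p`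
        ∀ N : ℕ, 1 ≤ N → ∀ lam χ : ℕ → 𝓞 E,
          (∀ p : ℕ, p.Prime → ¬ p ∣ N → ∀ n : ℕ, 1 ≤ n → PowerSeries.coeff (p * n) F =
            lam p * PowerSeries.coeff n F - χ p * (p : 𝓞 E) ^ (k - 1) *
              (if p ∣ n then PowerSeries.coeff (n / p) F else 0)) →
          PosLower (fun p => ¬ (p : 𝓞 E) ∣ lam p) ∧
          -- (B+) if all conjugates of the eigenvalues are twists: ordinary at all primes above `p`
          (IsGalois ℚ E → (∀ p : ℕ, p.Prime → ¬ p ∣ N → ∀ s : E ≃ₐ[ℚ] E,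
              ∃ u : 𝓞 E, IsUnit u ∧ s (lam p : E) = (u : E) * (lam p : E)) →
            PosLower (fun p => ∀ P : Ideal (𝓞 E), P.IsPrime → (p : 𝓞 E) ∈ P → lam p ∉ P))) ∧
    -- (C) Ramanujan's function
    PosLower (fun p => ¬ (p : ℤ) ∣ tau p) := by
  obtain ⟨h1, h2⟩ := Pool.Agent.H90.OP.res_of_core core
  refine ⟨fun E _ _ σ Γ _ w hw hT k hk g F hF hne => ?_, h2⟩
  obtain ⟨h3, h4⟩ := h1 E σ Γ w hw hT k hk g F hF hne
  refine ⟨h3, fun N hN lam χ heck => ?_⟩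
  have h5 := h4 N hN lam χ heck
  exact ⟨h5, fun hG ht => Inner_main N hN lam ht h5⟩

end Pool.Agent.H7.OP
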